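import Mathlib

/-!
# Cliques in the graphs of the forms `X² + bXY + Y²`

For an admissible subspace `V` (a non-zero subspace that is not a multiple of a subfield, with
fewer than `q ^ (n / 2)` elements) and `b ≠ 0`, the clique number of the graph `Γ(Q_b, V)` is
`o(#V)` as `q → ∞`.
-/

set_option autoImplicit false

namespace Pool.Agent.Results.MP_e8cc41_co.CliqueRatio

open Module

variable {K L : Type} [Field K] [Field L] [Algebra K L]

/-- The graph `Γ(Q_b, V)` on the field `L = 𝔽_{q^n}`: distinct `x`, `y` are adjacent if and only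
if `x² + bxy + y²` lies in the `K`-subspace `V` (`K = 𝔽_q`). -/
def formGraph (b : L) (V : Submodule K L) : SimpleGraph L where
  Adj x y := x ≠ y ∧ x ^ 2 + b * x * y + y ^ 2 ∈ V
  symm := ⟨fun x y h => ⟨h.1.symm, by
    have h2 := h.2
    have e : y ^ 2 + b * y * x + x ^ 2 = x ^ 2 + b * x * y + y ^ 2 := by ring
    rw [e]
    exact h2⟩⟩
  loopless := ⟨fun x h => h.1 rfl⟩

/-- The `K`-subspace `V` of `L` is admissible: `V ≠ {0}`, `#V < q^{n/2}`, and no multiple `αV` of
`V` is a subfield of `L`. -/
def Admissible [Fintype K] (V : Submodule K L) : Prop :=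
  V ≠ ⊥ ∧ Nat.card V ^ 2 < Fintype.card K ^ finrank K L ∧
    ∀ (α : L) (M : Subfield L), (fun v : L => α * v) '' (V : Set L) ≠ (M : Set L)

/-- The subspace `c⁻¹ V`. -/
def W (V : Submodule K L) (c : L) : Submodule K L := V.comap (LinearMap.mulLeft K c)

lemma mem_W {V : Submodule K L} {c t : L} : t ∈ W V c ↔ c * t ∈ V := by
  simp [W]

lemma card_W (V : Submodule K L) {c : L} (hc : c ≠ 0) : Nat.card (W V c) = Nat.card V := by
  apply Nat.card_congr
  exact
    { toFun := fun t => ⟨c * t.1, mem_W.1 t.2⟩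
      invFun := fun v => ⟨c⁻¹ * v.1, mem_W.2 (by rw [mul_inv_cancel_left₀ hc]; exact v.2)⟩
      left_inv := fun t => Subtype.ext (inv_mul_cancel_left₀ hc t.1)
      right_inv := fun v => Subtype.ext (mul_inv_cancel_left₀ hc v.1) }

lemma card_lt [Fintype K] [Fintype L] {A B : Submodule K L} (h : A < B) :
    Nat.card A * Fintype.card K ≤ Nat.card B := by
  have h1 : Nat.card A = Fintype.card K ^ finrank K A := by
    rw [Module.natCard_eq_pow_finrank (K := K), Nat.card_eq_fintype_card (α := K)]
  have h2 : Nat.card B = Fintype.card K ^ finrank K B := by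
    rw [Module.natCard_eq_pow_finrank (K := K), Nat.card_eq_fintype_card (α := K)]
  rw [h1, h2, ← pow_succ]
  exact Nat.pow_le_pow_right Fintype.card_pos (Submodule.finrank_lt_finrank_of_lt h)

/-- The stabiliser `{t : tW ⊆ W}` of a subspace, a subfield. -/
def stab [Fintype L] (U : Submodule K L) : Subfield L where
  carrier := {t | ∀ w ∈ U, t * w ∈ U}
  mul_mem' := by
    intro a b ha hb w hw
    rw [mul_assoc]
    exact ha _ (hb _ hw)
  one_mem' := by
    intro w hw
    rwa [one_mul]
  add_mem' := by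
    intro a b ha hb w hw
    rw [add_mul]
    exact U.add_mem (ha _ hw) (hb _ hw)
  zero_mem' := by
    intro w _
    rw [zero_mul]
    exact U.zero_mem
  neg_mem' := by
    intro a ha w hw
    rw [neg_mul]
    exact U.neg_mem (ha _ hw)
  inv_mem' := by
    intro a ha w hw
    by_cases h0 : a = 0
    · subst h0
      rw [inv_zero, zero_mul]
      exact U.zero_mem
    · let f : U → U := fun u => ⟨a * u.1, ha _ u.2⟩
      have hf : Function.Injective f := by
        intro u v huv
        have := congrArg Subtype.val huv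
        exact Subtype.ext (mul_left_cancel₀ h0 this)
      obtain ⟨u, hu⟩ := (Finite.injective_iff_surjective.1 hf) ⟨w, hw⟩
      have : a * u.1 = w := congrArg Subtype.val hu
      rw [← this, inv_mul_cancel_left₀ h0]
      exact u.2

lemma mem_stab [Fintype L] {U : Submodule K L} {t : L} : t ∈ stab U ↔ ∀ w ∈ U, t * w ∈ U :=
  Iff.rfl

/-- The explicit bound: a clique has at most `#V / q + 4` elements. -/
theorem bound [Fintype K] [Fintype L] (V : Submodule K L)
    (hM : ∀ (α : L) (M : Subfield L), (fun v : L => α * v) '' (V : Set L) ≠ (M : Set L))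
    {b : L} (hb : b ≠ 0) (S : Finset L)
    (hS : ∀ x ∈ S, ∀ y ∈ S, x ≠ y → x ^ 2 + b * x * y + y ^ 2 ∈ V) :
    S.card * Fintype.card K ≤ Nat.card V + 4 * Fintype.card K := by
  classical
  by_contra hlt
  push Not at hlt
  have hq : 0 < Fintype.card K := Fintype.card_pos
  have hcard : 4 < S.card := by
    by_contra h
    push Not at h
    have := Nat.mul_le_mul_right (Fintype.card K) h
    omega
  -- differences multiplied by differences lie in `b⁻¹ V`
  have key : ∀ x ∈ S, ∀ x' ∈ S, ∀ y ∈ S, ∀ y' ∈ S, x ≠ y → x ≠ y' → x' ≠ y → x' ≠ y' →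
      b * (x - x') * (y - y') ∈ V := by
    intro x hx x' hx' y hy y' hy' h1 h2 h3 h4
    have e : b * (x - x') * (y - y') = (x ^ 2 + b * x * y + y ^ 2) - (x' ^ 2 + b * x' * y + y ^ 2)
        - ((x ^ 2 + b * x * y' + y' ^ 2) - (x' ^ 2 + b * x' * y' + y' ^ 2)) := by ring
    rw [e]
    exact V.sub_mem (V.sub_mem (hS x hx y hy h1) (hS x' hx' y hy h3))
      (V.sub_mem (hS x hx y' hy' h2) (hS x' hx' y' hy' h4))
  -- the subspaces `W V (b (x - x'))` all coincide
  have hle : ∀ x ∈ S, ∀ x' ∈ S, ∀ z ∈ S, ∀ z' ∈ S, x ≠ x' → z ≠ z' →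
      W V (b * (x - x')) ≤ W V (b * (z - z')) := by
    intro x hx x' hx' z hz z' hz' hxx hzz
    by_contra hnot
    have hc : b * (x - x') ≠ 0 := mul_ne_zero hb (sub_ne_zero.2 hxx)
    set A := W V (b * (x - x')) with hA
    set B := W V (b * (z - z')) with hB
    have hlt' : A ⊓ B < A := lt_of_le_of_ne inf_le_left (fun h => hnot (inf_eq_left.1 h))
    have h1 := card_lt hlt'
    rw [hA, card_W V hc, ← hA] at h1
    let T := S \ {x, x', z, z'}
    have hT : S.card - 4 ≤ T.card := by
      have h5 : ({x, x', z, z'} : Finset L).card ≤ 4 := Finset.card_le_four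
      have h6 : S.card - ({x, x', z, z'} : Finset L).card ≤ T.card :=
        Finset.le_card_sdiff ({x, x', z, z'} : Finset L) S
      omega
    have hTpos : 0 < T.card := by omega
    obtain ⟨y0, hy0⟩ := Finset.card_pos.1 hTpos
    have hTle : T.card ≤ Nat.card (A ⊓ B : Submodule K L) := by
      have hinj : Function.Injective (fun y : T => (⟨y.1 - y0, by
          have hy := y.2
          simp only [T, Finset.mem_sdiff, Finset.mem_insert, Finset.mem_singleton, not_or] at hy hy0
          refine ⟨mem_W.2 ?_, mem_W.2 ?_⟩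
          · exact key x hx x' hx' y.1 hy.1 y0 hy0.1 (Ne.symm hy.2.1) (Ne.symm hy0.2.1)
              (Ne.symm hy.2.2.1) (Ne.symm hy0.2.2.1)
          · exact key z hz z' hz' y.1 hy.1 y0 hy0.1 (Ne.symm hy.2.2.2.1) (Ne.symm hy0.2.2.2.1)
              (Ne.symm hy.2.2.2.2) (Ne.symm hy0.2.2.2.2)⟩ : (A ⊓ B : Submodule K L))) := by
        intro u v huv
        have := congrArg Subtype.val huv
        simp only [sub_left_inj] at this
        exact Subtype.ext this
      have := Nat.card_le_card_of_injective _ hinj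
      rwa [Nat.card_eq_fintype_card, Fintype.card_coe] at this
    have h2 : (S.card - 4) * Fintype.card K ≤ Nat.card V :=
      (Nat.mul_le_mul_right _ (hT.trans hTle)).trans h1
    rw [Nat.sub_mul] at h2
    omega
  -- two elements of `S`
  obtain ⟨x0, hx0, x1, hx1, h01⟩ : ∃ x0 ∈ S, ∃ x1 ∈ S, x0 ≠ x1 := by
    have : 1 < S.card := by omega
    exact Finset.one_lt_card.1 this
  set s0 := x0 - x1 with hs0
  have hs0ne : s0 ≠ 0 := sub_ne_zero.2 h01
  have hall : ∀ x ∈ S, ∀ x' ∈ S, x ≠ x' → W V (b * (x - x')) = W V (b * s0) := by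
    intro x hx x' hx' h
    exact le_antisymm (hle x hx x' hx' x0 hx0 x1 hx1 h h01) (hle x0 hx0 x1 hx1 x hx x' hx' h01 h)
  set U := W V (b * s0) with hU
  have hdiff : ∀ y ∈ S, ∀ y' ∈ S, y - y' ∈ U := by
    intro y hy y' hy'
    by_cases hyy : y = y'
    · rw [hyy, sub_self]
      exact U.zero_mem
    · have h2 : 1 < (S \ {y, y'}).card := by
        have h5 : ({y, y'} : Finset L).card ≤ 2 := Finset.card_le_two
        have := Finset.le_card_sdiff ({y, y'} : Finset L) S
        omega
      obtain ⟨x, hx, x', hx', hxx⟩ := Finset.one_lt_card.1 h2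
      simp only [Finset.mem_sdiff, Finset.mem_insert, Finset.mem_singleton, not_or] at hx hx'
      rw [← hall x hx.1 x' hx'.1 hxx]
      exact mem_W.2 (key x hx.1 x' hx'.1 y hy y' hy' hx.2.1 hx.2.2 hx'.2.1 hx'.2.2)
  -- differences divided by `s0` stabilise `U`
  have hst : ∀ y ∈ S, (y - x0) / s0 ∈ stab U := by
    intro y hy
    by_cases hyx : y = x0
    · rw [hyx, sub_self, zero_div]
      exact (stab U).zero_mem
    · rw [mem_stab]
      intro w hw
      -- `w ∈ W V (b s0)`; hence `b s w' ∈ V` for `s = y - x0`, ...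
      have hs : y - x0 ≠ 0 := sub_ne_zero.2 hyx
      have e1 : (y - x0) / s0 * w ∈ W V (b * s0) := by
        rw [mem_W]
        have hw' : w ∈ W V (b * (y - x0)) := by
          rw [hall y hy x0 hx0 hyx]
          exact hw
        rw [mem_W] at hw'
        have e2 : b * s0 * ((y - x0) / s0 * w) = b * (y - x0) * w := by
          field_simp
        rw [e2]
        exact hw'
      exact e1
  -- `S` embeds in the stabiliser
  have hcS : S.card ≤ Nat.card (stab U) := by
    have hinj : Function.Injective (fun y : S => (⟨(y.1 - x0) / s0, hst y.1 y.2⟩ : stab U)) := by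
      intro u v huv
      have := congrArg Subtype.val huv
      simp only at this
      rw [div_left_inj' hs0ne, sub_left_inj] at this
      exact Subtype.ext this
    have := Nat.card_le_card_of_injective _ hinj
    rwa [Nat.card_eq_fintype_card, Fintype.card_coe] at this
  -- the subspace `s0 * stab U` of `U`
  let R : Submodule K L :=
    { carrier := {t | t / s0 ∈ stab U}
      add_mem' := by
        intro a c ha hc
        show (a + c) / s0 ∈ stab U
        rw [add_div]
        exact (stab U).add_mem ha hc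
      zero_mem' := by
        show (0 : L) / s0 ∈ stab U
        rw [zero_div]
        exact (stab U).zero_mem
      smul_mem' := by
        intro k a ha
        show (k • a) / s0 ∈ stab U
        rw [mem_stab]
        intro w hw
        have e : k • a / s0 * w = k • (a / s0 * w) := by
          rw [Algebra.smul_def, Algebra.smul_def]
          ring
        rw [e]
        exact U.smul_mem k (ha w hw) }
  have hRU : R ≤ U := by
    intro t ht
    have h1 : t / s0 ∈ stab U := ht
    have h2 := h1 s0 (hdiff x0 hx0 x1 hx1)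
    rwa [div_mul_cancel₀ _ hs0ne] at h2
  have hcR : Nat.card R = Nat.card (stab U) := by
    apply Nat.card_congr
    exact
      { toFun := fun t => ⟨t.1 / s0, t.2⟩
        invFun := fun v => ⟨v.1 * s0, by
          show v.1 * s0 / s0 ∈ stab U
          rw [mul_div_cancel_right₀ _ hs0ne]
          exact v.2⟩
        left_inv := fun t => Subtype.ext (div_mul_cancel₀ t.1 hs0ne)
        right_inv := fun v => Subtype.ext (mul_div_cancel_right₀ v.1 hs0ne) }
  have hREq : R = U := by
    by_contra hne
    have h1 := card_lt (lt_of_le_of_ne hRU hne)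
    have hUc : Nat.card U = Nat.card V := by
      rw [hU]
      exact card_W V (mul_ne_zero hb hs0ne)
    rw [hcR, hUc] at h1
    have h2 := Nat.mul_le_mul_right (Fintype.card K) hcS
    omega
  -- conclusion: a multiple of `V` is the subfield `stab U`
  apply hM (b * s0 * s0)⁻¹ (stab U)
  have hb2 : b * s0 * s0 ≠ 0 := mul_ne_zero (mul_ne_zero hb hs0ne) hs0ne
  ext t
  constructor
  · rintro ⟨v, hv, rfl⟩
    have h1 : (b * s0)⁻¹ * v ∈ U := by
      rw [hU, mem_W, mul_inv_cancel_left₀ (mul_ne_zero hb hs0ne)]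
      exact hv
    rw [← hREq] at h1
    have h2 : (b * s0)⁻¹ * v / s0 ∈ stab U := h1
    have e : (b * s0)⁻¹ * v / s0 = (b * s0 * s0)⁻¹ * v := by
      field_simp
    rw [e] at h2
    exact h2
  · intro ht
    refine ⟨b * s0 * s0 * t, ?_, inv_mul_cancel_left₀ hb2 t⟩
    have h1 : s0 * t ∈ U := by
      rw [← hREq]
      show s0 * t / s0 ∈ stab U
      rw [mul_div_cancel_left₀ _ hs0ne]
      exact ht
    rw [hU, mem_W] at h1
    have e : b * s0 * s0 * t = b * s0 * (s0 * t) := by ring
    rw [e]
    exact h1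

/-- For fixed `n ≥ 2`, the maximum of `ω(Q_b, V) / #V` over all admissible `V ⊆ 𝔽_{q^n}` and all
`b ∈ 𝔽_{q^n}^*` tends to `0` as `q → ∞` through the odd prime powers. -/
theorem result : ∀ n : ℕ, 2 ≤ n → ∀ ε : ℝ, 0 < ε → ∃ q₀ : ℕ,
    ∀ (K L : Type) [Field K] [Fintype K] [Field L] [Fintype L] [Algebra K L],
      Odd (Fintype.card K) → q₀ ≤ Fintype.card K → finrank K L = n →
      ∀ V : Submodule K L, Admissible V → ∀ b : L, b ≠ 0 →
        ((formGraph b V).cliqueNum : ℝ) ≤ ε * Nat.card V := by
  intro n _ ε hε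
  refine ⟨⌈5 / ε⌉₊ + 1, ?_⟩
  intro K L _ _ _ _ _ _ hq _ V hV b hb
  classical
  obtain ⟨S, hS⟩ := (formGraph b V).exists_isNClique_cliqueNum
  have h1 : ∀ x ∈ S, ∀ y ∈ S, x ≠ y → x ^ 2 + b * x * y + y ^ 2 ∈ V := by
    intro x hx y hy hxy
    exact (hS.isClique hx hy hxy).2
  have h2 := bound V hV.2.2 hb S h1
  rw [hS.card_eq] at h2
  have h3 : Fintype.card K ≤ Nat.card V := by
    have := card_lt (bot_lt_iff_ne_bot.2 hV.1)
    simpa using this
  have hq0 : (0 : ℝ) < Fintype.card K := by exact_mod_cast Fintype.card_pos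
  have h4 : ((formGraph b V).cliqueNum : ℝ) * Fintype.card K ≤ 5 * Nat.card V := by
    have h5 : (formGraph b V).cliqueNum * Fintype.card K ≤ 5 * Nat.card V := by omega
    exact_mod_cast h5
  have h6 : 5 / ε ≤ Fintype.card K := by
    have h7 : ((⌈5 / ε⌉₊ + 1 : ℕ) : ℝ) ≤ Fintype.card K := by exact_mod_cast hq
    have h8 := Nat.le_ceil (5 / ε)
    push_cast at h7
    linarith
  have h9 : 5 ≤ ε * Fintype.card K := by
    rw [div_le_iff₀ hε] at h6
    linarith
  have h10 : (0 : ℝ) ≤ Nat.card V := Nat.cast_nonneg _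
  have h11 : ((formGraph b V).cliqueNum : ℝ) * Fintype.card K ≤
      ε * Nat.card V * Fintype.card K := by
    calc ((formGraph b V).cliqueNum : ℝ) * Fintype.card K ≤ 5 * Nat.card V := h4
      _ ≤ ε * Fintype.card K * Nat.card V := mul_le_mul_of_nonneg_right h9 h10
      _ = ε * Nat.card V * Fintype.card K := by ring
  exact le_of_mul_le_mul_right h11 hq0

end Pool.Agent.Results.MP_e8cc41_co.CliqueRatio
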